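import Pool.Agent.R651.Asc.Spec
import Pool.Agent.R68.Asc.Polygon

/-!
# The cycle spectrum of the flip graph of a convex polygon (MP_fb8c36_co, Q1)

`|S(G_N)| / |T_N| → 1`: asymptotically almost every length between 3 and `|T_N|` is the length of
a cycle of the flip graph.
-/

set_option autoImplicit false

open scoped Topology
open Filter

namespace Pool.Agent.Results.MP_fb8c36_co.CycleSpectrum

open Pool.Agent.R651.Asc

/-- **Q1, answered in the affirmative.**  For the flip graph `flipGraph N` of the triangulations
of the convex `N`-gon with labelled vertices, the number of the cycle lengths divided by the number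
of the triangulations tends to 1. -/
theorem result :
    Tendsto (fun N : ℕ => ((cycleSpectrum (flipGraph N)).ncard : ℝ) /
      (Nat.card (Triangulation N) : ℝ)) atTop (𝓝 1) := by
  classical
  have h := main Pool.Agent.R68.AscP.polygon
  refine h.congr (fun N => ?_)
  rw [Nat.card_eq_fintype_card]

end Pool.Agent.Results.MP_fb8c36_co.CycleSpectrum
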